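import Pool.Agent.V11297.CycloPQ3

/-!
# `B(p q ^ b) > p` for odd primes `p < q` and `b ≥ 3`
-/

open Polynomial

namespace Pool.Agent.Results.MP_7a0dfe_nt.StrictLowerBound

open Pool.Agent.V11297

/-- For all odd primes `p < q` and all `b ≥ 3` the largest height `B` of a divisor of
`X ^ (p q ^ b) - 1` in `ℤ[X]` satisfies `B > p`, and indeed `B ≥ p (p + 1) / 2`. -/
theorem result (p q b : ℕ) (hp : p.Prime) (hq : q.Prime) (hpq : p < q) (h2 : p ≠ 2)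
    (hb : 2 < b) :
    ∃ B : ℕ, IsGreatest {h : ℕ | ∃ f : ℤ[X], f ∣ X ^ (p * q ^ b) - 1 ∧ height f = h} B ∧
      p < B ∧ p * ((p + 1) / 2) ≤ B := by
  obtain ⟨b', rfl⟩ : ∃ b', b = b' + 1 := ⟨b - 1, by omega⟩
  have h := CycloPQ.Mb_two hp hq hpq h2 (b := b') (by omega)
  have hp3 : 3 ≤ p := by have := hp.two_le; omega
  have h1 : p * ((p + 1) / 2) ≤ p * CycloPQ.Mb p q b' := Nat.mul_le_mul_left p h
  refine ⟨p * CycloPQ.Mb p q b', CycloPQ.isGreatest hp hq hpq b', ?_, h1⟩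
  have h3 : 2 ≤ (p + 1) / 2 := by omega
  have h4 : p * 2 ≤ p * ((p + 1) / 2) := Nat.mul_le_mul_left p h3
  omega

end Pool.Agent.Results.MP_7a0dfe_nt.StrictLowerBound
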